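import Mathlib
import Pool.Agent.Lib.MP_32acdc_lc.Lift

/-!
# The elementary theory of the groups acting freely on Λ-trees is undecidable

Idea of the proof. Let `*F` be an ultrapower of the free group `F` on `x_0, x_1, …`. It acts
freely on the ultrapower of the Cayley tree of `F`, which is a `*ℤ`-tree. Centralizers of
`r ≠ 1` in `*F` are of the form `{r^n : n ∈ *ℤ}`. For a subgroup `Q` of (a quotient of) the
abelianization of `*F`, the preimage `G` of `Q` in `*F` acts freely on the same tree, and the
centralizer in `G` of `r^k` is isomorphic to `{n ∈ *ℤ : n π(r) ∈ Q}`. For a suitable `Q` this group
is `ℤ ⊕ ℤ[1/p]` for the roots `r` whose exponent vector is a nonzero integer multiple of a vector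
from a prescribed family of 0-1 vectors of `colour` `p`, and it is cyclic modulo 2 otherwise.
In this way every countable relational structure with countably many ternary relations is
interpreted, uniformly and without parameters, in some group acting freely on a `Λ`-tree.
Computations of partial recursive functions are described by finitely many Horn sentences, so that
the halting problem reduces to the theory.
-/

namespace Pool.Agent.Results.MP_32acdc_lc.NotDecidable

open Pool.Agent.Lib.MP_32acdc_lc

universe u

/-- The set of Gödel numbers of the first-order sentences of the language of groups that hold in
every group acting freely on some `Λ`-tree is not recursive. -/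
theorem result : ¬ ComputablePred fun n : ℕ => ∃ φ ∈ ThK.{u}, φ.code = n :=
  not_computable_ThK

end Pool.Agent.Results.MP_32acdc_lc.NotDecidable
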